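import Pool.Agent.H.MP_738f0f_lc.A

set_option autoImplicit false

/-! Staggered two-bit blocks of a generic sequence. -/

namespace Pool.Agent.H.MP_73efbe_lc

open Pool.Agent.Lib.helper21.PR Pool.Agent.H.MP_738f0f_lc Encodable Function

attribute [local irreducible] Primrec Computable

def Ag (n : ℕ) (u v : ℕ → ℕ) : Prop := ∀ i < n, v i = u i

def Cn := (ℕ → ℕ) × ℕ

instance : Preorder Cn where
  le a b := b.2 ≤ a.2 ∧ Ag b.2 b.1 a.1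
  le_refl _ := ⟨le_rfl, fun _ _ => rfl⟩
  le_trans _ _ _ h k := ⟨k.1.trans h.1, fun i hi => (h.2 i (hi.trans_le k.1)).trans (k.2 i hi)⟩

theorem baire {ι : Type} [Countable ι] (O : ι → (ℕ → ℕ) → Prop) : ∃ u, ∀ i, ∃ n,
    (∀ v, Ag n u v → O i v) ∨ ∀ v m, Ag n u v → ∃ w, Ag m v w ∧ ¬ O i w := by
  obtain ⟨z, h1, h2⟩ := gen (C := Cn) (ι := ι ⊕ ℕ) (Sum.elim (fun i c => ∀ v, Ag c.2 c.1 v → O i v)
    fun k c => k < c.2) (fun _ => 0, 0)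
  have h3 : ∀ k, ∃ n, k < (z n).2 := fun k => (h2 (.inr k)).imp fun n h => h.resolve_right fun h =>
    h ((z n).1, max (z n).2 (k + 1)) ⟨le_max_left _ _, fun _ _ => rfl⟩ (le_max_right (z n).2 (k + 1))
  choose N hN using h3
  have h4 : ∀ n, Ag (z n).2 (z n).1 fun i => (z (N i)).1 i := fun n i hi =>
    ((h1 (le_max_right n (N i))).2 i (hN i)).symm.trans ((h1 (le_max_left n (N i))).2 i hi)
  refine ⟨fun i => (z (N i)).1 i, fun i => (h2 (.inl i)).elim fun n h => ⟨(z n).2, h.imp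
    (fun h v hv => h v fun j hj => (hv j hj).trans (h4 n j hj)) fun h v m hv => ?_⟩⟩
  have := h (v, max (z n).2 m) ⟨le_max_left _ _, fun j hj => (hv j hj).trans (h4 n j hj)⟩
  simp only [Sum.elim_inl, not_forall] at this
  obtain ⟨w, k1, k2⟩ := this
  exact ⟨w, fun j hj => k1 j (hj.trans_le (le_max_right _ _)), k2⟩

def S (r : ℕ) (u : ℕ → ℕ) : Set ℕ :=
  {y | y / 4 % 2 = r ∧ ¬ (u (y / 4) % 2 = y % 2 ∧ u (y / 4 + 1) % 2 = y / 2 % 2)}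

theorem S_ag {r y n : ℕ} {u v : ℕ → ℕ} (h : Ag n u v) (k : y / 4 + 1 < n) : y ∈ S r v ↔ y ∈ S r u := by
  simp only [S, Set.mem_ofPred_eq, h _ k, h (y / 4) (by omega)]

def L (r i c : ℕ) : List ℕ :=
  if i % 2 = r then [4 * i + c, 4 * i + c + 2] else [4 * (i - 1) + 2 * c, 4 * (i - 1) + 2 * c + 1]

theorem L_iff {r i c : ℕ} {u : ℕ → ℕ} (hr : r < 2) (hc : c < 2) (hi : i ≠ 0 ∨ r = 0) :
    (∀ y ∈ L r i c, y ∈ S r u) ↔ u i % 2 ≠ c := by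
  unfold L S
  split_ifs with h
  · simp only [List.forall_mem_cons, Set.mem_ofPred_eq, show (4 * i + c) / 4 = i by omega,
      show (4 * i + c + 2) / 4 = i by omega, List.not_mem_nil, false_imp_iff, implies_true, and_true]
    omega
  · obtain ⟨j, rfl⟩ : ∃ j, i = j + 1 := ⟨i - 1, by omega⟩
    simp only [List.forall_mem_cons, Set.mem_ofPred_eq, Nat.add_sub_cancel,
      show (4 * j + 2 * c) / 4 = j by omega,
      show (4 * j + 2 * c + 1) / 4 = j by omega, List.not_mem_nil, false_imp_iff, implies_true, and_true]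
    omega

theorem pf {α : Type} [Primcodable α] {p : α → Prop} (h : REPred p) :
    ∃ f : α →. ℕ, Partrec f ∧ ∀ a, (f a).Dom ↔ p a :=
  ⟨fun a => (Part.assert (p a) fun _ => Part.some ()).map fun _ => 0,
    Partrec.map h (Computable.const 0).to₂, fun a => by simp [Part.assert]⟩

theorem ered (u : ℕ → ℕ) {r r' : ℕ} (h : r + r' = 1) : ∃ W : Set (ℕ × List ℕ),
    (∃ f : ℕ × List ℕ →. ℕ, Partrec f ∧ ∀ p : ℕ × List ℕ, (f p).Dom ↔ p ∈ W) ∧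
    ∀ x : ℕ, x ∈ S r u ↔ ∃ l : List ℕ, (x, l) ∈ W ∧ ∀ y ∈ l, y ∈ S r' u := by
  have hL : Primrec fun z : ℕ × ℕ => L r' z.1 z.2 := by unfold L; fun_prop
  refine ⟨{p | p.1 / 4 % 2 = r ∧ ((p.1 / 4 = 0 ∧ u 0 % 2 ≠ p.1 % 2) ∨
    (p.1 / 4 ≠ 0 ∧ p.2 = L r' (p.1 / 4) (p.1 % 2)) ∨ p.2 = L r' (p.1 / 4 + 1) (p.1 / 2 % 2))},
    pf (RE.re ?_), fun x => ⟨fun ⟨h1, h2⟩ => ?_, fun ⟨l, ⟨h1, h2⟩, h3⟩ => ⟨h1, fun ⟨h4, h5⟩ => ?_⟩⟩⟩
  · simp only [Set.mem_ofPred_eq]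
    fun_prop
  · rcases not_and_or.1 h2 with h2 | h2
    · by_cases e : x / 4 = 0
      · exact ⟨[], ⟨h1, .inl ⟨e, e ▸ h2⟩⟩, by simp⟩
      · exact ⟨_, ⟨h1, .inr (.inl ⟨e, rfl⟩)⟩, (L_iff (by omega) (by omega) (.inl e)).2 h2⟩
    · exact ⟨_, ⟨h1, .inr (.inr rfl)⟩, (L_iff (by omega) (by omega) (by omega)).2 h2⟩
  · dsimp only at h1 h2
    rcases h2 with ⟨e, h2⟩ | ⟨e, rfl⟩ | rfl
    · exact h2 (e ▸ h4)
    · exact (L_iff (by omega) (by omega) (.inl e)).1 h3 h4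
    · exact (L_iff (by omega) (by omega) (by omega)).1 h3 h5

def D (c : Nat.Partrec.Code) (x y : ℕ) : Prop := (c.eval (encode (x, y))).Dom

def Im (c : Nat.Partrec.Code) (r : ℕ) (u : ℕ → ℕ) (x : ℕ) : Prop := ∃ y ∈ S r u, D c x y

theorem flip {c : ℕ → Nat.Partrec.Code} {u : ℕ → ℕ} {x p q : ℕ}
    (h1 : ∀ r < 2, ∀ v, Ag q u v → ¬ Im (c r) r v x) {v : ℕ → ℕ} (hv : Ag p u v)
    (h2 : Im (c 0) 0 v x) : ∃ w m, Ag p u w ∧ ∀ w', Ag m w w' →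
      ¬ (Im (c 0) 0 w' x ↔ Im (c 1) 1 w' x) := by
  classical
  have h3 : ∀ r < 2, ∀ y, y / 4 % 2 = r → D (c r) x y →
      y / 4 + 1 < q ∧ y ∉ S r u := fun r hr y k1 k2 => by
    refine ⟨not_le.1 fun k => h1 r hr (update u (y / 4 + 1) (y / 2 + 1))
      (fun i hi => update_of_ne (by omega) _ _) ⟨y, ⟨k1, ?_⟩, k2⟩,
      fun k => h1 r hr u (fun _ _ => rfl) ⟨y, k, k2⟩⟩
    rw [update_self]
    omega
  let P : ℕ → Prop := fun j => ∃ y, y / 4 = j ∧ D (c (j % 2)) x y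
  obtain ⟨y0, g1, g2⟩ := h2
  have g3 := h3 0 (by omega) y0 g1.1 g2
  have g4 : p ≤ y0 / 4 + 1 := not_lt.1 fun k => g3.2 ((S_ag hv k).1 g1)
  have g5 : P (y0 / 4) := ⟨y0, rfl, g1.1 ▸ g2⟩
  have g6 := Nat.le_findGreatest (P := P) (show y0 / 4 ≤ q by omega) g5
  obtain ⟨y, g7, g8⟩ := Nat.findGreatest_spec (P := P) (show y0 / 4 ≤ q by omega) g5
  have g9 := fun k => Nat.findGreatest_is_greatest (P := P) (n := q) (k := k)
  generalize Nat.findGreatest P q = j at g6 g7 g8 g9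
  have a1 := h3 _ (Nat.mod_lt _ two_pos) y (by rw [g7]) g8
  refine ⟨update u (j + 1) (u (j + 1) + 1), q, fun i hi => update_of_ne (by omega) _ _,
    fun w' hw => ?_⟩
  have a2 : Im (c (j % 2)) (j % 2) w' x := by
    refine ⟨y, (S_ag hw a1.1).2 ⟨by rw [g7], fun k => a1.2 ⟨by rw [g7], fun k' => ?_⟩⟩, g8⟩
    rw [g7, update_self] at k
    rw [g7] at k'
    omega
  have a3 : ∀ r < 2, r ≠ j % 2 → ¬ Im (c r) r w' x := fun r hr e ⟨y', b1, b2⟩ => by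
    have b3 := h3 r hr y' b1.1 b2
    have b4 : y' / 4 ≤ j := not_lt.1 fun k => g9 _ k (by omega) ⟨y', rfl, b1.1 ▸ b2⟩
    have b5 := b1.1
    have b6 := (S_ag hw b3.1).1 b1
    refine b3.2 ⟨b5, ?_⟩
    have := b6.2
    rwa [update_of_ne (by omega), update_of_ne (by omega)] at this
  rcases Nat.mod_two_eq_zero_or_one j with e | e <;> rw [e] at a2 a3
  · exact fun k => a3 1 (by omega) (by omega) (k.1 a2)
  · exact fun k => a3 0 (by omega) (by omega) (k.2 a2)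

end Pool.Agent.H.MP_73efbe_lc
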